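import Pool.Agent.Lib.MP_c28bf6_an.LC.P.ALG
import Pool.Agent.Lib.MP_c28bf6_an.LC.P.SLOT
import Pool.Agent.Lib.MP_c28bf6_an.LC.P.SLC
import Pool.Agent.Lib.MP_c28bf6_an.LC.P.TK
import Pool.Agent.Lib.MP_c28bf6_an.LC.P.ALT
import Pool.Agent.Lib.MP_c28bf6_an.LC.P.DIFA
import Pool.Agent.Lib.MP_c28bf6_an.LC.P.DIF
import Pool.Agent.Lib.MP_c28bf6_an.LC.P.MIX
import Pool.Agent.Lib.MP_c28bf6_an.LC.P.TOP
import Pool.Agent.Lib.MP_c28bf6_an.LC.P.POS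
import Pool.Agent.Lib.MP_c28bf6_an.LC.P.LBD
import Pool.Agent.Lib.MP_c28bf6_an.LC.P.APP
import Pool.Agent.Lib.MP_c28bf6_an.LC.P.PP
import Pool.Agent.Lib.MP_c28bf6_an.LC.P.SORT
import Pool.Agent.Lib.MP_c28bf6_an.LC.P.LADJ
import Pool.Agent.Lib.MP_c28bf6_an.LC.P.LKER
import Pool.Agent.Lib.MP_c28bf6_an.LC.P.RHO
import Pool.Agent.Lib.MP_c28bf6_an.LC.P.LINE
import Pool.Agent.Lib.MP_c28bf6_an.LC.P.RAD
import Pool.Agent.Lib.MP_c28bf6_an.LC.P.INV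
import Pool.Agent.Lib.MP_c28bf6_an.LC.P.GEO
import Pool.Agent.Lib.MP_c28bf6_an.LC.P.LDAT
import Pool.Agent.Lib.MP_c28bf6_an.LC.P.ALTS
import Pool.Agent.Lib.MP_c28bf6_an.LC.P.CSUM
import Pool.Agent.Lib.MP_c28bf6_an.LC.P.CIRC
import Pool.Agent.Lib.MP_c28bf6_an.LC.P.FIN

/-!
# The line and circle theorem for choreographies: assembly
-/

set_option autoImplicit false

namespace Pool.Agent.Lib.MP_c28bf6_an.LC

theorem t_SLC : S_SLC := p_SLC p_SLOT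
theorem t_DIFA : S_DIFA := p_DIFA p_ALG
theorem t_DIF : S_DIF := p_DIF t_SLC t_DIFA
theorem t_MIX : S_MIX := p_MIX t_SLC
theorem t_TOP : S_TOP := p_TOP p_ALG t_SLC
theorem t_POS : S_POS := p_POS t_DIF t_MIX t_TOP
theorem t_LBD : S_LBD := p_LBD t_POS
theorem t_PP : S_PP := p_PP t_LBD p_TK p_APP
theorem t_LADJ : S_LADJ := p_LADJ p_ALG t_PP t_SLC p_ALT
theorem t_LKER : S_LKER := p_LKER p_SORT t_LADJ
theorem t_LINE : S_LINE := p_LINE t_LKER p_RHO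
theorem t_LDAT : S_LDAT := p_LDAT p_RAD p_INV p_GEO
theorem t_CIRC : S_CIRC := p_CIRC t_LDAT p_RAD t_LKER t_LADJ p_SORT p_RHO p_ALTS p_CSUM
theorem t_FIN : S_FIN := p_FIN t_LINE t_CIRC

end Pool.Agent.Lib.MP_c28bf6_an.LC
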