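import Pool.Agent.Lib.MP_c28bf6_an.LC.Q.LB2
import Pool.Agent.Lib.MP_c28bf6_an.LC.Q.LOW
import Pool.Agent.Lib.MP_c28bf6_an.LC.Q.PL
import Pool.Agent.Lib.MP_c28bf6_an.LC.Q.BORD
import Pool.Agent.Lib.MP_c28bf6_an.LC.Q.CSUM
import Pool.Agent.Lib.MP_c28bf6_an.LC.Q.CST
import Pool.Agent.Lib.MP_c28bf6_an.LC.Q.LST
import Pool.Agent.Lib.MP_c28bf6_an.LC.Q.EXZ
import Pool.Agent.Lib.MP_c28bf6_an.LC.Q.SUB
import Pool.Agent.Lib.MP_c28bf6_an.LC.Q.OC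
import Pool.Agent.Lib.MP_c28bf6_an.LC.Q.PERP
import Pool.Agent.Lib.MP_c28bf6_an.LC.Q.MIR
import Pool.Agent.Lib.MP_c28bf6_an.LC.Q.OL2
import Pool.Agent.Lib.MP_c28bf6_an.LC.Q.OL3
import Pool.Agent.Lib.MP_c28bf6_an.LC.Q.OL
import Pool.Agent.Lib.MP_c28bf6_an.LC.Q.FIN

/-!
# The line and circle theorem for choreographies: assembly of the second part

`t_BORD`: the bordered Pfaffian of `1 / (b - a) ^ 2` on an increasing list of odd length is positive.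
`t_CST`: charges on a circle are never in equilibrium. `t_FIN2`: the theorem on choreographies.
-/

set_option autoImplicit false

namespace Pool.Agent.Lib.MP_c28bf6_an.LC

theorem t_PL : Q_PL := q_PL q_LB2 q_LOW
theorem t_BORD : Q_BORD := q_BORD t_PL
theorem t_CSUM : Q_CSUM := q_CSUM t_BORD
theorem t_CST : Q_CST := q_CST t_CSUM
theorem t_SUB : Q_SUB := q_SUB t_CST q_LST
theorem t_OC : Q_OC := q_OC q_EXZ t_SUB
theorem t_OL2 : Q_OL2 := q_OL2 q_EXZ t_SUB q_PERP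
theorem t_OL3 : Q_OL3 := q_OL3 q_EXZ t_SUB q_PERP q_MIR
theorem t_OL : Q_OL := q_OL t_OL2 t_OL3
theorem t_FIN2 : Q_FIN := q_FIN t_OC t_OL

end Pool.Agent.Lib.MP_c28bf6_an.LC
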