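import Pool.Agent.Lib.MP_c28bf6_an.Convert2

/-!
# Pfaffians of lists

`pf K [v1, .., vs]` is the Pfaffian of the antisymmetric matrix whose entry `(i, j)`, `i < j`, is
`K vi vj`.
-/

namespace Pool.Agent.Lib.MP_c28bf6_an.LC

variable {α β : Type*}

/-- the alternating sum of `F x m` over the elements `x` of the list; `m` is the rest -/
def sumE : (α → List α → ℝ) → List α → ℝ
  | _, [] => 0
  | F, x :: l => F x l - sumE (fun y m => F y (x :: m)) l

/-- Pfaffian with fuel -/
def pfn (K : α → α → ℝ) : ℕ → List α → ℝ
  | _, [] => 1
  | 0, _ :: _ => 0
  | n + 1, a :: l => sumE (fun x m => K a x * pfn K n m) l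

/-- Pfaffian of a list with respect to a kernel: expansion along the first element -/
def pf (K : α → α → ℝ) (l : List α) : ℝ := pfn K l.length l

@[simp] lemma sumE_nil (F : α → List α → ℝ) : sumE F [] = 0 := rfl

lemma sumE_cons (F : α → List α → ℝ) (x : α) (l : List α) :
    sumE F (x :: l) = F x l - sumE (fun y m => F y (x :: m)) l := rfl

/-- congruence: only pairs `(x, m)`, `x` an element of the list and `m` the rest, matter -/
lemma sumE_congr {F G : α → List α → ℝ} {l : List α}
    (h : ∀ x m, x ∈ l → List.Sublist m l → m.length + 1 = l.length → F x m = G x m) :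
    sumE F l = sumE G l := by
  induction l generalizing F G with
  | nil => rfl
  | cons a l ih =>
    rw [sumE_cons, sumE_cons, h a l (by simp) (List.sublist_cons_self a l) (by simp)]
    congr 1
    apply ih
    intro x m hx hm hlen
    exact h x (a :: m) (by simp [hx]) (hm.cons_cons a) (by simp [hlen])

lemma sumE_append (F : α → List α → ℝ) (l1 l2 : List α) :
    sumE F (l1 ++ l2) = sumE (fun x m => F x (m ++ l2)) l1 +
      (-1) ^ l1.length * sumE (fun x m => F x (l1 ++ m)) l2 := by
  induction l1 generalizing F with
  | nil => simp
  | cons a l1 ih =>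
    rw [List.cons_append, sumE_cons, sumE_cons, ih]
    simp only [List.length_cons, pow_succ, List.cons_append]
    ring

lemma sumE_add (F G : α → List α → ℝ) (l : List α) :
    sumE (fun x m => F x m + G x m) l = sumE F l + sumE G l := by
  induction l generalizing F G with
  | nil => simp
  | cons a l ih =>
    rw [sumE_cons, sumE_cons, sumE_cons, ih]
    ring

lemma sumE_smul (c : ℝ) (F : α → List α → ℝ) (l : List α) :
    sumE (fun x m => c * F x m) l = c * sumE F l := by
  induction l generalizing F with
  | nil => simp
  | cons a l ih =>
    rw [sumE_cons, sumE_cons, ih]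
    ring

lemma sumE_sub (F G : α → List α → ℝ) (l : List α) :
    sumE (fun x m => F x m - G x m) l = sumE F l - sumE G l := by
  have h1 : (fun x m => F x m - G x m) = fun x m => F x m + (-1) * G x m := by
    funext x m; ring
  rw [h1, sumE_add, sumE_smul]
  ring

lemma sumE_neg (F : α → List α → ℝ) (l : List α) :
    sumE (fun x m => -F x m) l = -sumE F l := by
  have h1 : (fun x m => -F x m) = fun x m => (-1) * F x m := by
    funext x m; ring
  rw [h1, sumE_smul]
  ring

lemma sumE_zero (l : List α) : sumE (fun _ _ => (0 : ℝ)) l = 0 := by
  have := sumE_smul 0 (fun _ _ => (0 : ℝ)) l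
  simpa using this

lemma sumE_map (f : β → α) (F : α → List α → ℝ) (l : List β) :
    sumE F (l.map f) = sumE (fun x m => F (f x) (m.map f)) l := by
  induction l generalizing F with
  | nil => rfl
  | cons a l ih =>
    rw [List.map_cons, sumE_cons, sumE_cons, ih]
    rfl

/-- The double alternating sum is antisymmetric. -/
lemma sumE_sumE (u v : α → ℝ) (P : List α → ℝ) (l : List α) :
    sumE (fun x m => u x * sumE (fun y m' => v y * P m') m) l +
      sumE (fun x m => v x * sumE (fun y m' => u y * P m') m) l = 0 := by
  induction l generalizing P with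
  | nil => simp
  | cons z l ih =>
    have key : ∀ u v : α → ℝ,
        sumE (fun x m => u x * sumE (fun y m' => v y * P m') m) (z :: l) =
          u z * sumE (fun y m => v y * P m) l - v z * sumE (fun x m => u x * P m) l +
          sumE (fun x m => u x * sumE (fun y m' => v y * P (z :: m')) m) l := by
      intro u v
      rw [sumE_cons]
      have h1 : ∀ x m, u x * sumE (fun y m' => v y * P m') (z :: m) =
          v z * (u x * P m) - u x * sumE (fun y m' => v y * P (z :: m')) m := by
        intro x m
        rw [sumE_cons]
        ring
      simp only [h1]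
      rw [sumE_sub, sumE_smul]
      ring
    rw [key u v, key v u]
    have := ih (fun m => P (z :: m))
    linarith

@[simp] lemma pf_nil (K : α → α → ℝ) : pf K [] = 1 := rfl

lemma pfn_eq (K : α → α → ℝ) : ∀ (n : ℕ) (l : List α), l.length ≤ n → pfn K n l = pf K l := by
  intro n
  induction n using Nat.strong_induction_on with
  | _ n ih =>
    intro l hl
    cases l with
    | nil => cases n <;> rfl
    | cons a l =>
      cases n with
      | zero => simp at hl
      | succ n =>
        simp only [List.length_cons] at hl
        show sumE (fun x m => K a x * pfn K n m) l = pfn K (l.length + 1) (a :: l)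
        show sumE (fun x m => K a x * pfn K n m) l = sumE (fun x m => K a x * pfn K l.length m) l
        apply sumE_congr
        intro x m _ _ hm
        rw [ih n (Nat.lt_succ_self n) m (by omega)]
        rcases Nat.lt_or_ge l.length (n + 1) with h | h
        · rw [ih l.length h m (by omega)]
        · have : l.length = n := by omega
          omega

lemma pf_cons (K : α → α → ℝ) (a : α) (l : List α) :
    pf K (a :: l) = sumE (fun x m => K a x * pf K m) l := by
  show sumE (fun x m => K a x * pfn K l.length m) l = _
  apply sumE_congr
  intro x m _ _ hm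
  rw [pfn_eq K l.length m (by omega)]

@[simp] lemma pf_single (K : α → α → ℝ) (a : α) : pf K [a] = 0 := by
  rw [pf_cons]; rfl

@[simp] lemma pf_pair (K : α → α → ℝ) (a b : α) : pf K [a, b] = K a b := by
  rw [pf_cons, sumE_cons]
  simp

/-- Expansion along the first element, with a marked element. -/
lemma pf_cons_append (K : α → α → ℝ) (a v : α) (l1 l2 : List α) :
    pf K (a :: (l1 ++ v :: l2)) =
      sumE (fun x m => K a x * pf K (m ++ v :: l2)) l1 +
      (-1) ^ l1.length * (K a v * pf K (l1 ++ l2) -
        sumE (fun x m => K a x * pf K (l1 ++ v :: m)) l2) := by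
  rw [pf_cons, sumE_append, sumE_cons]

/-- Exchange of the first two elements. -/
lemma pf_swap_first (K : α → α → ℝ) (a b : α) (l : List α) :
    pf K (a :: b :: l) + pf K (b :: a :: l) = (K a b + K b a) * pf K l := by
  have key : ∀ a b, pf K (a :: b :: l) = K a b * pf K l -
      sumE (fun x m => K a x * sumE (fun y m' => K b y * pf K m') m) l := by
    intro a b
    rw [pf_cons, sumE_cons]
    congr 1
    apply sumE_congr
    intro x m _ _ _
    rw [pf_cons]
  rw [key a b, key b a]
  have := sumE_sumE (fun x => K a x) (fun x => K b x) (fun m => pf K m) l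
  linarith

/-- **Exchange of two neighbours.** -/
theorem pf_swap (K : α → α → ℝ) (l1 : List α) (a b : α) (l2 : List α) :
    pf K (l1 ++ a :: b :: l2) + pf K (l1 ++ b :: a :: l2) = (K a b + K b a) * pf K (l1 ++ l2) := by
  induction h : (l1 ++ l2).length using Nat.strong_induction_on generalizing l1 l2 with
  | _ N ih =>
    cases l1 with
    | nil => exact pf_swap_first K a b l2
    | cons c l1 =>
      simp only [List.cons_append, List.length_cons] at h
      have e : ∀ a b, pf K (c :: (l1 ++ a :: b :: l2)) =
          sumE (fun x m => K c x * pf K (m ++ a :: b :: l2)) l1 +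
          (-1) ^ l1.length * (K c a * pf K (l1 ++ b :: l2) - (K c b * pf K (l1 ++ a :: l2) -
            sumE (fun x m => K c x * pf K (l1 ++ a :: b :: m)) l2)) := by
        intro a b
        rw [pf_cons_append, sumE_cons]
      rw [List.cons_append, List.cons_append, List.cons_append, e a b, e b a, pf_cons, sumE_append]
      have h1 : sumE (fun x m => K c x * pf K (m ++ a :: b :: l2)) l1 +
          sumE (fun x m => K c x * pf K (m ++ b :: a :: l2)) l1 =
          (K a b + K b a) * sumE (fun x m => K c x * pf K (m ++ l2)) l1 := by
        rw [← sumE_add, ← sumE_smul]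
        apply sumE_congr
        intro x m _ _ hm
        have := ih (m ++ l2).length (by rw [← h]; simp; omega) m l2 rfl
        linear_combination K c x * this
      have h2 : sumE (fun x m => K c x * pf K (l1 ++ a :: b :: m)) l2 +
          sumE (fun x m => K c x * pf K (l1 ++ b :: a :: m)) l2 =
          (K a b + K b a) * sumE (fun x m => K c x * pf K (l1 ++ m)) l2 := by
        rw [← sumE_add, ← sumE_smul]
        apply sumE_congr
        intro x m _ _ hm
        have := ih (l1 ++ m).length (by rw [← h]; simp; omega) l1 m rfl
        linear_combination K c x * this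
      linear_combination h1 + (-1) ^ l1.length * h2

end Pool.Agent.Lib.MP_c28bf6_an.LC
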