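import Pool.Agent.Lib.MP_c28bf6_an.LC.All2
import Pool.Agent.Lib.MP_c28bf6_an.Convert2

/-!
# The bodies off a circle or a line and the dimension of the space of mass differences
-/

set_option autoImplicit false

open Module

namespace Pool.Agent.Lib.MP_c28bf6_an.LC

/-- a subspace whose elements are determined by their values on `F` -/
lemma finrank_le_card {n : ℕ} (S : Submodule ℝ (Fin n → ℝ)) (F : Finset (Fin n))
    (h : ∀ w ∈ S, (∀ i ∈ F, w i = 0) → w = 0) : finrank ℝ S ≤ F.card := by
  let f : S →ₗ[ℝ] (F → ℝ) :=
    { toFun := fun w i => (w : Fin n → ℝ) i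
      map_add' := fun _ _ => rfl
      map_smul' := fun _ _ => rfl }
  have hf : Function.Injective f := by
    rw [injective_iff_map_eq_zero]
    intro w hw
    apply Subtype.ext
    refine h w.1 w.2 fun i hi => ?_
    exact congrFun hw ⟨i, hi⟩
  have h1 := LinearMap.finrank_le_finrank_of_injective hf
  rw [finrank_fintype_fun_eq_card, Fintype.card_coe] at h1
  exact h1

/-- **The bodies off a circle or a line.** -/
theorem dim_le {E : Type} [NormedAddCommGroup E] [InnerProductSpace ℝ E] {n : ℕ}
    {m : Fin n → ℝ} {x : ℝ → E} {T : ℝ} (h : IsChoreography n m x T) (t : ℝ)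
    (F : Finset (Fin n)) :
    (EuclideanGeometry.Concyclic ((fun i => body n x T i t) '' {i | i ∉ F}) →
      finrank ℝ (massSpan m) ≤ F.card) ∧
    (Collinear ℝ ((fun i => body n x T i t) '' {i | i ∉ F}) →
      finrank ℝ (massSpan m) ≤ F.card + (if Even (n - F.card) then 0 else 1)) := by
  obtain _ | k := n
  · have h0 : finrank ℝ (massSpan m) ≤ 0 := by
      refine (Submodule.finrank_le _).trans ?_
      simp
    exact ⟨fun _ => h0.trans (Nat.zero_le _), fun _ => h0.trans (Nat.zero_le _)⟩
  · have hc := h.core
    have hinj : Function.Injective (fun j : ZMod (k + 1) => bodyZ k x T j t) := fun a b hab => by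
      by_contra hne
      exact hc.nocol t a b hne hab
    have hsys : Sys E (k + 1) (Core.W (k + 1) (fun j : ZMod (k + 1) => m j))
        (fun j : ZMod (k + 1) => bodyZ k x T j t) :=
      ⟨hinj, fun w hw => Core.W_shift hw 1, fun w hw => Core.sum_W hw,
        fun w hw i => hc.equil_W hw t i⟩
    constructor
    · intro hF
      refine finrank_le_card _ F fun w hw h0 => ?_
      have hw' := massSpan_le m hw
      by_cases hcard : F.card + 2 ≤ k + 1
      · exact (t_SUB E (k + 1) _ _ hsys F _ hw' h0).1 hF hcard
      · have hsum : ∑ j, w j = 0 := Core.sum_W hw'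
        have hcomp : Fᶜ.card ≤ 1 := by
          rw [Finset.card_compl, Fintype.card_fin]
          omega
        funext i
        by_cases hi : i ∈ F
        · exact h0 i hi
        · have h1 : ∑ j, w j = w i := by
            refine Finset.sum_eq_single i (fun j _ hj => ?_) (fun hi' => absurd (Finset.mem_univ i) hi')
            by_contra hwj
            have hjF : j ∉ F := fun hjF => hwj (h0 j hjF)
            exact hj (Finset.card_le_one.1 hcomp j (Finset.mem_compl.2 hjF) i
              (Finset.mem_compl.2 hi))
          rw [h1] at hsum
          exact hsum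
    · intro hF
      by_cases hev : Even (k + 1 - F.card)
      · rw [if_pos hev, add_zero]
        refine finrank_le_card _ F fun w hw h0 => ?_
        exact ((t_SUB E (k + 1) _ _ hsys F _ (massSpan_le m hw) h0).2 hF).1 hev
      · rw [if_neg hev]
        have hodd : Odd (k + 1 - F.card) := Nat.not_even_iff_odd.1 hev
        have hlt : F.card < k + 1 := by
          have := hodd.pos
          omega
        obtain ⟨i, hi⟩ : ∃ i, i ∉ F := by
          by_contra hall
          push Not at hall
          have : F = Finset.univ := Finset.eq_univ_iff_forall.2 hall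
          rw [this, Finset.card_univ, Fintype.card_fin] at hlt
          exact lt_irrefl _ hlt
        have h2 : finrank ℝ (massSpan m) ≤ (insert i F).card := by
          refine finrank_le_card _ _ fun w hw h0 => ?_
          refine ((t_SUB E (k + 1) _ _ hsys F _ (massSpan_le m hw) fun j hj => h0 j ?_).2 hF).2
            hodd i hi (h0 i ?_)
          · exact Finset.mem_insert_of_mem hj
          · exact Finset.mem_insert_self i F
        rwa [Finset.card_insert_of_notMem hi] at h2

end Pool.Agent.Lib.MP_c28bf6_an.LC
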