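import Pool.Agent.Lib.MP_c28bf6_an.LC.All

/-!
# All bodies but at most one on a line, or all bodies on a circle
-/

set_option autoImplicit false

namespace Pool.Agent.Lib.MP_c28bf6_an.LC

/-- If all points but `X k` are in an affine subspace with direction `P` that does not contain
`X k`, then a charge in equilibrium vanishes at `k`. -/
lemma off_one (E : Type) [NormedAddCommGroup E] [InnerProductSpace ℝ E] (n : ℕ) [NeZero n]
    (w : ZMod n → ℝ) (X : ZMod n → E) (P : Submodule ℝ E) (i k : ZMod n)
    (hP : ∀ j, j ≠ k → X j - X i ∈ P) (hk : X k - X i ∉ P)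
    (heq : ∑ j, w j • force (X j - X i) = 0) : w k = 0 := by
  by_contra hwk
  apply hk
  have h1 : w k • force (X k - X i) = - ∑ j ∈ Finset.univ.erase k, w j • force (X j - X i) := by
    rw [← Finset.add_sum_erase _ _ (Finset.mem_univ k)] at heq
    exact eq_neg_of_add_eq_zero_left heq
  have h2 : w k • force (X k - X i) ∈ P := by
    rw [h1]
    refine P.neg_mem (P.sum_mem fun j hj => P.smul_mem _ ?_)
    exact P.smul_mem _ (hP j (Finset.ne_of_mem_erase hj))
  have h3 : force (X k - X i) ∈ P := (P.smul_mem_iff hwk).1 h2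
  by_cases h0 : X k - X i = 0
  · rw [h0]; exact P.zero_mem
  · have h4 : (‖X k - X i‖ ^ 3)⁻¹ ≠ 0 := inv_ne_zero (pow_ne_zero 3 (norm_ne_zero_iff.2 h0))
    exact (P.smul_mem_iff h4).1 h3

/-- all points but at most one on a line -/
theorem line_one (E : Type) [NormedAddCommGroup E] [InnerProductSpace ℝ E] (n : ℕ) [NeZero n]
    (W : Submodule ℝ (ZMod n → ℝ)) (X : ZMod n → E) (hX : Function.Injective X)
    (hshift : ∀ w ∈ W, (fun j => w (j + 1)) ∈ W) (hsum : ∀ w ∈ W, ∑ j, w j = 0)
    (heq : ∀ w ∈ W, ∀ i, ∑ j, w j • force (X j - X i) = 0) (k : ZMod n)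
    (hcol : Collinear ℝ (X '' {j | j ≠ k})) : ∀ w ∈ W, w = 0 := by
  by_cases hall : Collinear ℝ (Set.range X)
  · exact t_LINE E n W X hX hshift hsum heq hall
  · obtain ⟨p, v, hv⟩ := (collinear_iff_exists_forall_eq_smul_vadd _).1 hcol
    have hv' : ∀ j, j ≠ k → ∃ r : ℝ, X j = r • v +ᵥ p := fun j hj => hv _ ⟨j, hj, rfl⟩
    have hex : ∃ i, i ≠ k := by
      by_contra hno
      push Not at hno
      apply hall
      have : Set.range X ⊆ {X k} := by
        rintro _ ⟨j, rfl⟩
        rw [hno j]
        rfl
      exact (collinear_singleton ℝ (X k)).subset this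
    obtain ⟨i, hik⟩ := hex
    have hP : ∀ j, j ≠ k → X j - X i ∈ Submodule.span ℝ {v} := by
      intro j hj
      obtain ⟨a, ha⟩ := hv' j hj
      obtain ⟨b, hb⟩ := hv' i hik
      rw [ha, hb, Submodule.mem_span_singleton]
      refine ⟨a - b, ?_⟩
      simp only [vadd_eq_add, sub_smul]
      abel
    have hk : X k - X i ∉ Submodule.span ℝ {v} := by
      intro hmem
      apply hall
      obtain ⟨c, hc⟩ := Submodule.mem_span_singleton.1 hmem
      obtain ⟨b, hb⟩ := hv' i hik
      refine (collinear_iff_exists_forall_eq_smul_vadd _).2 ⟨p, v, ?_⟩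
      rintro _ ⟨j, rfl⟩
      by_cases hj : j = k
      · refine ⟨c + b, ?_⟩
        rw [hj]
        have h5 : X k = c • v + X i := by rw [hc]; abel
        rw [h5, hb]
        simp only [vadd_eq_add, add_smul]
        abel
      · exact hv' j hj
    have hw0 : ∀ w ∈ W, w k = 0 := fun w hw =>
      off_one E n w X _ i k hP hk (heq w hw i)
    have hsh : ∀ r : ℕ, ∀ w ∈ W, w (k + (r : ZMod n)) = 0 := by
      intro r
      induction r with
      | zero => intro w hw; rw [Nat.cast_zero, add_zero]; exact hw0 w hw
      | succ r ih =>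
        intro w hw
        have h6 := ih _ (hshift w hw)
        rw [Nat.cast_succ, ← add_assoc]
        exact h6
    intro w hw
    funext j
    have h7 := hsh (j - k).val w hw
    rw [ZMod.natCast_zmod_val, add_sub_cancel] at h7
    exact h7

/-- **THE LINE AND CIRCLE THEOREM.** -/
theorem final {E : Type} [NormedAddCommGroup E] [InnerProductSpace ℝ E] {n : ℕ}
    {m : Fin n → ℝ} {x : ℝ → E} {T : ℝ} (h : IsChoreography n m x T) (t : ℝ)
    (ht : (∃ k, Collinear ℝ ((fun i => body n x T i t) '' {i | i ≠ k})) ∨
      EuclideanGeometry.Concyclic (Set.range (fun i => body n x T i t)))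
    (i j : Fin n) : m i = m j := by
  rcases ht with ht | ht
  swap
  · exact t_FIN E n m x T h t (Or.inr ht) i j
  · obtain ⟨k0, hk0⟩ := ht
    obtain _ | k := n
    · exact i.elim0
    · have hc := h.core
      have hinj : Function.Injective (fun j : ZMod (k + 1) => bodyZ k x T j t) := fun a b hab => by
        by_contra hne
        exact hc.nocol t a b hne hab
      have hall : ∀ w ∈ Core.W (k + 1) (fun j : ZMod (k + 1) => m j), w = 0 :=
        line_one E (k + 1) (Core.W (k + 1) (fun j : ZMod (k + 1) => m j))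
            (fun j : ZMod (k + 1) => bodyZ k x T j t) hinj (fun w hw => Core.W_shift hw 1)
            (fun w hw => Core.sum_W hw) (fun w hw i => hc.equil_W hw t i) k0 hk0
      have key : ∀ a b : ZMod (k + 1), m a = m b := by
        intro a b
        have h3 := hall _ (Core.diff_mem (μ := fun j : ZMod (k + 1) => m j) (a - b))
        have h4 := congrFun h3 b
        simp only [Pi.zero_apply] at h4
        have h5 : b + (a - b) = a := by ring
        rw [h5] at h4
        linarith
      exact key i j

end Pool.Agent.Lib.MP_c28bf6_an.LC
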