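import Pool.Agent.Lib.MP_c28bf6_an.LC.Base

/-!
# Choreographies that pass through a collinear or concyclic configuration: statements of the pieces

Theorem (all `n`, any dimension): if at some instant the bodies of a collision-free choreography lie
on a line or on a circle then all masses are equal.

Sketch. The differences `m (j + s) - m j` of the masses span a space `W` of charges in equilibrium
(`Dynamics.lean`): the forces of the charges on every body vanish. On a line the matrix of the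
forces of an even number of points is invertible: its Pfaffian, the Pfaffian of `1 / (y - x) ^ 2` on
an increasing list, is positive (`S_PP`; all `n`). A circle is reduced to a line by an inversion.

Piece `X` is the file `LC/P/X.lean` with `theorem p_X (h1 : S_A) (h2 : S_B) .. : S_X`, namespace
`Pool.Agent.Lib.MP_c28bf6_an.LC`, importing this file; the pieces that may be used as hypotheses
are named in the docstrings. `pf K l` is the Pfaffian of the list `l` for the kernel `K`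
(`Base.lean`; `pf_cons`, `pf_cons_append`, `pf_swap`).
-/

open Filter Topology

set_option autoImplicit false

namespace Pool.Agent.Lib.MP_c28bf6_an.LC

/-! ## Algebra of Pfaffians of lists -/

/-- **[ALG]** 1. Only the values `K a b` with `a` before `b` matter; 2. Pfaffian of `l.map f`;
3. a factor `g a * g b` comes out as the product of all `g a`.
PROOF. All by strong induction on `l.length` with `pf_cons`, `sumE_congr` (1: `K a x = K' a x` for
`x ∈ l` and `m` is a sublist of `l`), `sumE_map` (2). For 3 one needs a version of `sumE_congr` in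
which the hypothesis also gives `(x :: m).Perm l` (proved by the same induction as `sumE_congr`:
`x :: a :: m ~ a :: x :: m ~ a :: l`), because `g x * (m.map g).prod = (l.map g).prod`
(`List.Perm.prod_eq`), and `sumE_smul`. -/
def S_ALG : Prop :=
  (∀ (α : Type) (K K' : α → α → ℝ) (l : List α),
    l.Pairwise (fun a b => K a b = K' a b) → pf K l = pf K' l) ∧
  (∀ (α β : Type) (f : β → α) (K : α → α → ℝ) (l : List β),
    pf K (l.map f) = pf (fun a b => K (f a) (f b)) l) ∧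
  (∀ (α : Type) (g : α → ℝ) (K : α → α → ℝ) (l : List α),
    pf (fun a b => g a * g b * K a b) l = (l.map g).prod * pf K l)

/-- **[SLOT]** The Pfaffian as a function of one element `w` of the list is a linear combination of
the functions `K x w`, `x` before `w`, and `K w y`, `y` after `w`.
PROOF. Lemma: for a submodule `M` of `α → ℝ` and `F : β → List β → α → ℝ` with `F x m ∈ M` for all
`x ∈ l`, `m` a sublist of `l`: `(fun w => sumE (fun x m => F x m w) l) ∈ M` (induction on `l`, `sumE_cons`,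
`Submodule.sub_mem`). Strong induction on `l1.length + l2.length`. `l1 = []`: `pf_cons` and the lemma
(the functions `fun w => K w x * c` are in the span). `l1 = a :: l1'`: `pf_cons_append`; the
functions `fun w => pf K (m ++ w :: l2)`, `m` a sublist of `l1'`, and `fun w => pf K (l1' ++ w :: m)`,
`m` a sublist of `l2`, are in smaller spans by induction (`Submodule.span_mono`; keep the length
information as in `sumE_congr` or use `m.length ≤ l.length` from the sublist), and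
`fun w => K a w * c` is in the span. -/
def S_SLOT : Prop :=
  ∀ (α : Type) (K : α → α → ℝ) (l1 l2 : List α),
    (fun w => pf K (l1 ++ w :: l2)) ∈ Submodule.span ℝ
      ({f : α → ℝ | ∃ x ∈ l1, f = fun w => K x w} ∪ {f : α → ℝ | ∃ y ∈ l2, f = fun w => K w y})

/-- **[SLC]** Corollaries: additivity, derivative, limit, charges in equilibrium.
PROOF (may use `S_SLOT`). `Submodule.span_induction` for the statements
`f w = f u + f v`; `HasDerivAt (fun s => f (w s)) (f w') t`; `Tendsto (fun s => f (w s)) atTop (𝓝 (f w0))`;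
`∑ j, c j * f j = 0` (for a generator `fun w => K w y` the last one is `∑ j, c j * K j y =
- ∑ j, c j * K y j = 0`). -/
def S_SLC : Prop :=
  (∀ (α : Type) (K : α → α → ℝ) (l1 l2 : List α) (w u v : α),
    (∀ x ∈ l1, K x w = K x u + K x v) → (∀ y ∈ l2, K w y = K u y + K v y) →
    pf K (l1 ++ w :: l2) = pf K (l1 ++ u :: l2) + pf K (l1 ++ v :: l2)) ∧
  (∀ (α : Type) (K : α → α → ℝ) (l1 l2 : List α) (w : ℝ → α) (w' : α) (t : ℝ),
    (∀ x ∈ l1, HasDerivAt (fun s => K x (w s)) (K x w') t) →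
    (∀ y ∈ l2, HasDerivAt (fun s => K (w s) y) (K w' y) t) →
    HasDerivAt (fun s => pf K (l1 ++ w s :: l2)) (pf K (l1 ++ w' :: l2)) t) ∧
  (∀ (α : Type) (K : α → α → ℝ) (l1 l2 : List α) (w : ℝ → α) (w0 : α),
    (∀ x ∈ l1, Tendsto (fun s => K x (w s)) atTop (𝓝 (K x w0))) →
    (∀ y ∈ l2, Tendsto (fun s => K (w s) y) atTop (𝓝 (K w0 y))) →
    Tendsto (fun s => pf K (l1 ++ w s :: l2)) atTop (𝓝 (pf K (l1 ++ w0 :: l2)))) ∧
  (∀ (ι : Type) [Fintype ι] (K : ι → ι → ℝ) (c : ι → ℝ) (l1 l2 : List ι),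
    (∀ a b, K a b = - K b a) → (∀ x ∈ l1 ++ l2, ∑ j, c j * K x j = 0) →
    ∑ j, c j * pf K (l1 ++ j :: l2) = 0)

/-- **[TK]** Limits of kernels. PROOF. Strong induction on the length with `pf_cons`; the limit
of `sumE (F n) l` is `sumE F l` if `F n x m` tends to `F x m` for all `x ∈ l` and sublists `m` of `l`
(induction on `l`, `sumE_cons`, `Tendsto.sub`, `Tendsto.mul`). -/
def S_TK : Prop :=
  ∀ (α : Type) (K : ℕ → α → α → ℝ) (K0 : α → α → ℝ) (l : List α),
    l.Pairwise (fun a b => Tendsto (fun n => K n a b) atTop (𝓝 (K0 a b))) →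
    Tendsto (fun n => pf (K n) l) atTop (𝓝 (pf K0 l))

/-- **[ALT]** For an antisymmetric kernel a repeated element gives `0`.
PROOF. `K a b + K b a = 0`, so `pf_swap` gives `pf K (l1 ++ a :: b :: l2) = - pf K (l1 ++ b :: a :: l2)`.
Claim: `pf K (l1 ++ i :: (m ++ i :: r)) = 0`, induction on `m` (all `l1`): `m = []`: `pf_swap` with `a = b = i`.
`m = b :: m'`: exchange `i` and `b` and use the claim for `l1 ++ [b]`, `m'`. If `i ∈ l2` write
`l2 = m ++ i :: r` (`List.append_of_mem`), if `i ∈ l1` write `l1 = m ++ i :: r`. -/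
def S_ALT : Prop :=
  ∀ (α : Type) (K : α → α → ℝ) (l1 l2 : List α) (i : α), (∀ a b, K a b = - K b a) →
    i ∈ l1 ∨ i ∈ l2 → pf K (l1 ++ i :: l2) = 0

/-! ## The Pfaffian of `1 / (y - x) ^ 2` on an increasing list is positive -/

/-- modes: the values of two functions -/
abbrev V : Type := (ℝ → ℝ) × (ℝ → ℝ)

/-- the kernel `∑ c s * v.1 s * w.2 s` -/
noncomputable def KS (S : Finset ℝ) (c : ℝ → ℝ) (v w : V) : ℝ := ∑ s ∈ S, c s * v.1 s * w.2 s

/-- the kernel `∑ c s * exp (s * (a - b))` -/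
noncomputable def KE (S : Finset ℝ) (c : ℝ → ℝ) (a b : ℝ) : ℝ :=
  ∑ s ∈ S, c s * Real.exp (s * (a - b))

/-- the mode of a point, normalised at the exponent `L` -/
noncomputable def EE (L y : ℝ) : V :=
  (fun s => Real.exp ((s - L) * y), fun s => Real.exp (-((s + L) * y)))

/-- difference of two points -/
noncomputable def dd (L : ℝ) (p : ℝ × ℝ) : V :=
  (fun s => Real.exp ((s - L) * p.1) - Real.exp ((s - L) * p.2),
    fun s => Real.exp (-((s + L) * p.1)) - Real.exp (-((s + L) * p.2)))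

/-- minus the derivative of `EE L` -/
noncomputable def de (L z : ℝ) : V :=
  (fun s => (L - s) * Real.exp ((s - L) * z), fun s => (L + s) * Real.exp (-((s + L) * z)))

/-- positivity and monotonicity in the coefficients, for points -/
def Pos (S : Finset ℝ) : Prop :=
  ∀ c c' : ℝ → ℝ, (∀ s ∈ S, 0 ≤ c' s) → (∀ s ∈ S, c' s ≤ c s) →
    ∀ ys : List ℝ, ys.Pairwise (· < ·) →
      0 ≤ pf (KE S c') ys ∧ pf (KE S c') ys ≤ pf (KE S c) ys

/-- positivity and monotonicity for derivatives followed by differences -/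
def DifP (L : ℝ) (S : Finset ℝ) : Prop :=
  ∀ c c' : ℝ → ℝ, (∀ s ∈ S, 0 ≤ c' s) → (∀ s ∈ S, c' s ≤ c s) →
    ∀ (zs : List ℝ) (ps : List (ℝ × ℝ)), zs.Pairwise (· < ·) →
      ps.Pairwise (fun p q => p.2 ≤ q.1) → (∀ p ∈ ps, p.1 < p.2) → (∀ z ∈ zs, ∀ p ∈ ps, z ≤ p.1) →
      0 ≤ pf (KS S c') (zs.map (de L) ++ ps.map (dd L)) ∧
      pf (KS S c') (zs.map (de L) ++ ps.map (dd L)) ≤ pf (KS S c) (zs.map (de L) ++ ps.map (dd L))

/-- positivity and monotonicity for differences followed by points -/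
def MixP (L : ℝ) (S : Finset ℝ) : Prop :=
  ∀ c c' : ℝ → ℝ, (∀ s ∈ S, 0 ≤ c' s) → (∀ s ∈ S, c' s ≤ c s) →
    ∀ (ps : List (ℝ × ℝ)) (zs : List ℝ), ps.Pairwise (fun p q => p.2 ≤ q.1) →
      (∀ p ∈ ps, p.1 < p.2) → zs.Pairwise (· < ·) → (∀ p ∈ ps, ∀ z ∈ zs, p.2 ≤ z) →
      0 ≤ pf (KS S c') (ps.map (dd L) ++ zs.map (EE L)) ∧
      pf (KS S c') (ps.map (dd L) ++ zs.map (EE L)) ≤ pf (KS S c) (ps.map (dd L) ++ zs.map (EE L))

/-- lower bound for points -/
def LBP (L : ℝ) (S : Finset ℝ) : Prop :=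
  ∀ c : ℝ → ℝ, (∀ s ∈ S, 0 ≤ c s) → ∀ (a b : ℝ) (R : List ℝ), (a :: b :: R).Pairwise (· < ·) →
    Real.exp (-(L * (b - a))) * (∑ s ∈ S, c s) * pf (KE S c) R ≤ pf (KE S c) (a :: b :: R)

/-- **[DIFA]** Derivatives at points: the exponent `L` drops out.
PROOF (may use `S_ALG`). `pf (KS ..) (zs.map (de L)) = pf (fun a b => KS .. (de L a) (de L b)) zs`, and
`KS (insert L S') c (de L a) (de L b) = exp (-(L * a)) * exp (-(L * b)) * KE S' (fun s => c s * (L ^ 2 - s ^ 2)) a b`: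
the term `s = L` has the factor `L - L = 0` (`L ∉ S'`, `Finset.sum_insert`). So the Pfaffian is the
product of the `exp (-(L * z))`, `z ∈ zs` (positive) times the Pfaffian of `KE S' ĉ`, `ĉ s = c s * (L ^ 2 - s ^ 2)`,
and `0 ≤ ĉ' ≤ ĉ` on `S'` because `0 < s < L`. Use `Pos S'`. -/
def S_DIFA : Prop :=
  ∀ (L : ℝ) (S' : Finset ℝ), (∀ s ∈ S', s < L) → (∀ s ∈ S', 0 < s) → Pos S' →
    ∀ c c' : ℝ → ℝ, (∀ s ∈ insert L S', 0 ≤ c' s) → (∀ s ∈ insert L S', c' s ≤ c s) →
    ∀ zs : List ℝ, zs.Pairwise (· < ·) →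
      0 ≤ pf (KS (insert L S') c') (zs.map (de L)) ∧
      pf (KS (insert L S') c') (zs.map (de L)) ≤ pf (KS (insert L S') c) (zs.map (de L))

/-- **[DIF]** PROOF (may use `S_SLC`, `S_DIFA`). Induction on `ps`, for all `zs`. `ps = []`: `S_DIFA`.
`ps = (l, r) :: ps'`: for a coefficient function `c` let
`G c s = pf (KS S c) (zs.map (de L) ++ dd L (l, s) :: ps'.map (dd L))`, `S = insert L S'`. `G c l = 0`: the
element `dd L (l, l)` is zero, so by additivity (`S_SLC`.1 with `w = u = v`) `G = G + G`. By `S_SLC`.2,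
`HasDerivAt (G c) (pf (KS S c) (zs.map (de L) ++ de L s :: ps'.map (dd L))) s` for all `s`
(`KS S c x (dd L (l, s))` and `KS S c (dd L (l, s)) y` are finite sums of exponentials in `s`; the
derivative of `- exp ((a - L) * s)` is `(L - a) * exp (..)`, of `- exp (-((a + L) * s))` it is
`(L + a) * exp (..)`). This is the list of the induction hypothesis for `zs ++ [s]` and `ps'`; for
`l < s < r` its conditions hold (`z ≤ l < s`, `s < r ≤ q.1`). So for `s` in `(l, r)` the derivative of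
`G c'` is `≥ 0` and the derivative of `G c - G c'` is `≥ 0`; both are continuous on `[l, r]` and vanish at
`l` (`monotoneOn_of_deriv_nonneg (convex_Icc l r)`): so `0 ≤ G c' r` and `G c' r ≤ G c r`. -/
def S_DIF : Prop :=
  ∀ (L : ℝ) (S' : Finset ℝ), (∀ s ∈ S', s < L) → (∀ s ∈ S', 0 < s) → Pos S' →
    DifP L (insert L S')

/-- **[MIX]** PROOF (may use `S_SLC`). Strong induction on `zs.length`, for all `ps`. `zs = []`: `DifP`
(with `zs = []`). `zs = [z]`: for `t > z`, `DifP` for `ps ++ [(z, t)]` gives the inequalities for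
`pf (KS S c) (ps.map (dd L) ++ [dd L (z, t)])`; as `t → ∞` this tends to
`pf (KS S c) (ps.map (dd L) ++ [EE L z])` by `S_SLC`.3 (with `l2 = []`), because for `x` in the list
`KS S c x (dd L (z, t)) = ∑ s ∈ S, c s * x.1 s * (exp (-((s + L) * z)) - exp (-((s + L) * t)))` and `s + L > 0`.
The inequalities pass to the limit (`ge_of_tendsto`, `le_of_tendsto_of_tendsto`).
`zs = z :: z' :: R`: by additivity (`EE L z = dd L (z, z') + EE L z'` for the kernel) and `pf_swap` with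
`a = b = EE L z'` (so `2 pf = 2 K pf`):
`pf (ps.map dd ++ EE z :: EE z' :: R.map EE) = pf (ps.map dd ++ dd (z, z') :: EE z' :: R.map EE)
  + KS S c (EE z') (EE z') * pf (ps.map dd ++ R.map EE)`.
The first term on the right is the case `ps ++ [(z, z')]`, `z' :: R`, the second one is the case `ps`,
`R`, and `KS S c (EE L z') (EE L z') = ∑ s ∈ S, c s * exp (..) * exp (..)` is `≥ 0` and monotone in `c`. -/
def S_MIX : Prop :=
  ∀ (L : ℝ) (S : Finset ℝ), 0 < L → (∀ s ∈ S, 0 < s) → DifP L S → MixP L S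

/-- **[TOP]** PROOF (may use `S_ALG`, `S_SLC`). `KS S c (EE L a) (EE L b) = exp (-(L * a)) * exp (-(L * b)) * KE S c a b`,
so `pf (KS S c) (ys.map (EE L)) = (ys.map (fun y => exp (-(L * y)))).prod * pf (KE S c) ys` (`S_ALG`), the product
is positive: `Pos S` is `MixP` for `ps = []`. For `LBP`: as in `S_MIX`,
`pf (EE a :: EE b :: R.map EE) = pf (dd (a, b) :: EE b :: R.map EE) + KS S c (EE b) (EE b) * pf (R.map EE)`, the
first term on the right is `≥ 0` by `MixP` (`ps = [(a, b)]`, `zs = b :: R`), and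
`KS S c (EE L b) (EE L b) = exp (-(L * b)) * exp (-(L * b)) * ∑ s ∈ S, c s`. Divide by
`exp (-(L * a)) * exp (-(L * b)) * (product over R)`. -/
def S_TOP : Prop :=
  ∀ (L : ℝ) (S : Finset ℝ), MixP L S → Pos S ∧ LBP L S

/-- **[POS]** PROOF (may use `S_DIF`, `S_MIX`, `S_TOP`). `Finset.induction_on_max S`. `S = ∅`: `KE ∅ c = 0`, so
`pf (KE ∅ c) ys` does not depend on `c`, it is `1` for `ys = []` and `0` otherwise (`pf_cons`, `sumE_zero`);
the second part is empty. `S = insert L S'`, `s < L` for `s ∈ S'`: `DifP`, then `MixP`, then `Pos` and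
`LBP L`; an element of `S` that bounds `S` is `L`. -/
def S_POS : Prop :=
  ∀ S : Finset ℝ, (∀ s ∈ S, 0 < s) → Pos S ∧ ∀ L ∈ S, (∀ s ∈ S, s ≤ L) → LBP L S

/-- **[LBD]** A lower bound that does not depend on the kernel.
PROOF (may use `S_POS`). Induction on the length of `ys`, two elements at a time. `ys = []`: `δ = 1`.
`ys = a :: b :: R`: `δ = exp (-(L0 * (b - a))) * δ_R`. Given `S`, `c`, let `S0 = S.filter (· ≤ L0)`, nonempty because
the sum is `≥ 1`. `Pos S` for `c' = fun s => if s ≤ L0 then c s else 0` gives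
`pf (KE S c) ys ≥ pf (KE S c') ys = pf (KE S0 c) ys` (`Finset.sum_filter`). With `L = S0.max'`, `L ≤ L0`, `LBP L S0`
gives `pf (KE S0 c) ys ≥ exp (-(L * (b - a))) * (∑ s ∈ S0, c s) * pf (KE S0 c) R`, and
`pf (KE S0 c) R ≥ δ_R` by induction (`S0.filter (· ≤ L0) = S0`). -/
def S_LBD : Prop :=
  ∀ (L0 : ℝ) (ys : List ℝ), ys.Pairwise (· < ·) → Even ys.length →
    ∃ δ : ℝ, 0 < δ ∧ ∀ (S : Finset ℝ) (c : ℝ → ℝ), (∀ s ∈ S, 0 < s) → (∀ s ∈ S, 0 ≤ c s) →
      1 ≤ ∑ s ∈ S.filter (· ≤ L0), c s → δ ≤ pf (KE S c) ys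

/-- the exponents `k / M`, `1 ≤ k ≤ N` -/
noncomputable def SM (M N : ℕ) : Finset ℝ := (Finset.Icc 1 N).image (fun k : ℕ => (k : ℝ) / M)

/-- **[APP]** `1 / r ^ 2` is a limit of exponential sums.
PROOF. `k ↦ k / M` is injective for `M ≥ 1` (`Finset.sum_image`). 1. The sum is
`∑ k ∈ Icc 1 N, k / M ^ 2 * x ^ k`, `x = exp (-((b - a) / M)) ∈ (0, 1)`; use
`hasSum_coe_mul_geometric_of_norm_lt_one` and `HasSum.tendsto_sum_nat` (the term `k = 0` is `0`; shift the
range). 2. With `h = 1 / M → 0+`: `M * (1 - exp (-(r / M))) → r` (derivative of `exp` at `0`) and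
`exp (-(r / M)) → 1`. 3. The terms `M < k ≤ 2 M` are `M` terms `≥ 1 / M`; all terms are `≥ 0`. -/
def S_APP : Prop :=
  (∀ M : ℕ, 1 ≤ M → ∀ a b : ℝ, a < b →
    Tendsto (fun N : ℕ => KE (SM M N) (fun s => s / M) a b) atTop
      (𝓝 (((M : ℝ)⁻¹) ^ 2 * (Real.exp (-((b - a) / M)) / (1 - Real.exp (-((b - a) / M))) ^ 2)))) ∧
  (∀ r : ℝ, 0 < r → Tendsto (fun M : ℕ =>
    ((M : ℝ)⁻¹) ^ 2 * (Real.exp (-(r / M)) / (1 - Real.exp (-(r / M))) ^ 2)) atTop
      (𝓝 ((r ^ 2)⁻¹))) ∧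
  (∀ M N : ℕ, 1 ≤ M → 2 * M ≤ N → 1 ≤ ∑ s ∈ (SM M N).filter (· ≤ (2 : ℝ)), s / M)

/-- **[PP]** THE PFAFFIAN OF `1 / (y - x) ^ 2` ON AN INCREASING LIST IS POSITIVE.
PROOF (may use `S_LBD`, `S_TK`, `S_APP`). Take `δ` from `S_LBD` for `L0 = 2`. For `M ≥ 1`, `N ≥ 2 M`:
`δ ≤ pf (KE (SM M N) (fun s => s / M)) ys` (elements of `SM M N` are positive). Let `N → ∞`: with
`K1 M a b = (M⁻¹) ^ 2 * (exp ..)`, `δ ≤ pf (K1 M) ys` for `M ≥ 1` (`S_TK` with `S_APP`.1 on the pairs `a < b` of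
the list). Let `M → ∞`: `δ ≤ pf (fun a b => ((b - a) ^ 2)⁻¹) ys`. -/
def S_PP : Prop :=
  ∀ ys : List ℝ, ys.Pairwise (· < ·) → Even ys.length →
    0 < pf (fun a b => ((b - a) ^ 2)⁻¹) ys

/-! ## Charges on a line -/

/-- **[SORT]** PROOF. Sort the elements of `T` by `s`: e.g. `T.image s` is a finite set of reals,
`(T.image s).sort (· ≤ ·)` is increasing; pull it back with the inverse of `s` on `T`
(or induct on `T` with `Finset.induction_on_max_value s`). -/
def S_SORT : Prop :=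
  ∀ (ι : Type) [DecidableEq ι] (s : ι → ℝ) (T : Finset ι),
    (∀ i ∈ T, ∀ j ∈ T, s i = s j → i = j) →
    ∃ l : List ι, l.Nodup ∧ (∀ i, i ∈ l ↔ i ∈ T) ∧ l.length = T.card ∧
      l.Pairwise (fun i j => s i < s j)

/-- **[LADJ]** Pfaffians and charges in equilibrium on a line.
PROOF (may use `S_ALG`, `S_PP`, `S_SLC`, `S_ALT`). `K i j = phi (s j - s i)`, antisymmetric (`phi_neg`), and
`K i j = ((s j - s i) ^ 2)⁻¹` if `s i < s j` (`phi_of_pos`). So `pf K l > 0` for every list `l` of even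
length with `l.Pairwise (fun i j => s i < s j)` (`S_ALG`.1, `S_ALG`.2 with `f = s`, `S_PP`).
1. `S_SLC`.4 for `l1`, `l2`: `∑ j, w j * pf K (l1 ++ j :: l2) = 0`. The terms with `j ∈ l1 ∨ j ∈ l2` vanish by
`S_ALT`, the terms with `j` outside of `l1 ++ i :: l2` vanish because `w j = 0`. So `w i * pf K (..) = 0`.
2. `S_SLC`.4 for `l1`, `l2`: only the terms `j = a` and `j = b` (`a ≠ b`) remain; `α = pf K (l1 ++ a :: l2)`,
`β = pf K (l1 ++ b :: l2)`, both lists are increasing of even length. -/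
def S_LADJ : Prop :=
  ∀ (ι : Type) [Fintype ι] (s w : ι → ℝ) (l1 l2 : List ι),
    (∀ i : ι, (l1 ++ i :: l2).Pairwise (fun i j => s i < s j) → Even (l1 ++ i :: l2).length →
      (∀ j, j ∉ l1 ++ i :: l2 → w j = 0) →
      (∀ x ∈ l1 ++ l2, ∑ j, w j * phi (s j - s x) = 0) → w i = 0) ∧
    (∀ a b : ι, (l1 ++ a :: b :: l2).Pairwise (fun i j => s i < s j) →
      Odd (l1 ++ a :: b :: l2).length → (∀ j, j ∉ l1 ++ a :: b :: l2 → w j = 0) →
      (∀ x ∈ l1 ++ l2, ∑ j, w j * phi (s j - s x) = 0) →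
      ∃ α β : ℝ, 0 < α ∧ 0 < β ∧ α * w a + β * w b = 0)

/-- **[LKER]** 1. Charges in equilibrium at an even number of points of a line vanish. 2. At an odd
number of points: a zero charge at one of the points makes all of them zero.
PROOF (may use `S_SORT`, `S_LADJ`). 1. `l` from `S_SORT`; for `i ∈ T` write `l = l1 ++ i :: l2`
(`List.append_of_mem`) and use `S_LADJ`.1. 2. Apply 1 to `T.erase i`. -/
def S_LKER : Prop :=
  ∀ (ι : Type) [Fintype ι] [DecidableEq ι] (s w : ι → ℝ) (T : Finset ι),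
    (∀ i ∈ T, ∀ j ∈ T, s i = s j → i = j) → (∀ i, i ∉ T → w i = 0) →
    (∀ i ∈ T, ∑ j, w j * phi (s j - s i) = 0) →
    (Even T.card → ∀ i, w i = 0) ∧ (Odd T.card → ∀ i ∈ T, w i = 0 → ∀ j, w j = 0)

/-! ## The shift -/

/-- **[RHO]** PROOF. If `w 0 = 0` then `w = 0`. Otherwise `v j = w 0 * w (j + 1) - w 1 * w j` is in `W` (use
`0 + 1 = 1`) and `v 0 = 0`, so `v = 0`: `w (j + 1) = ρ * w j` for all `j`, `ρ = w 1 / w 0`. So
`w (k : ZMod n) = ρ ^ k * w 0` for `k : ℕ`, and `k = n` gives `ρ ^ n = 1`, `|ρ| = 1`, `ρ = 1` or `ρ = -1`. If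
`ρ = 1` then `w` is constant (every `j` is `((j.val : ℕ) : ZMod n)`), its sum is `n * w 0 = 0`, so `w 0 = 0`. -/
def S_RHO : Prop :=
  ∀ (n : ℕ) [NeZero n] (W : Submodule ℝ (ZMod n → ℝ)),
    (∀ w ∈ W, (fun j => w (j + 1)) ∈ W) → (∀ w ∈ W, ∑ j, w j = 0) →
    (∀ w ∈ W, w 0 = 0 → w = 0) → ∀ w ∈ W, ∀ j, w (j + 1) = - w j

/-! ## The line -/

/-- **[LINE]** PROOF (may use `S_LKER`, `S_RHO`). `n = 1`: `w 0 = ∑ w = 0`. Let `n ≥ 2`.
`collinear_iff_exists_forall_eq_smul_vadd`: `X j = s j • u + p`; `u ≠ 0` and `s` is injective because `X` is.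
`X j - X i = (s j - s i) • u`, so by `force_smul_phi`, `force_ne_zero`:
`∑ j, w j * phi (s j - s i) = 0` for all `w ∈ W` and all `i`. `n` even: `S_LKER`.1 with `T = univ`. `n` odd: by
`S_LKER`.2 the hypothesis of `S_RHO` holds, so `w (j + 1) = - w j`, so
`w 0 = w (n : ZMod n) = (-1) ^ n * w 0 = - w 0`, `w 0 = 0`, `w = 0`. -/
def S_LINE : Prop :=
  ∀ (E : Type) [NormedAddCommGroup E] [InnerProductSpace ℝ E] (n : ℕ) [NeZero n]
    (W : Submodule ℝ (ZMod n → ℝ)) (X : ZMod n → E), Function.Injective X →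
    (∀ w ∈ W, (fun j => w (j + 1)) ∈ W) → (∀ w ∈ W, ∑ j, w j = 0) →
    (∀ w ∈ W, ∀ i, ∑ j, w j • force (X j - X i) = 0) →
    Collinear ℝ (Set.range X) → ∀ w ∈ W, w = 0

/-! ## The circle -/

/-- **[RAD]** On a sphere. PROOF. `‖X j - c‖ ^ 2 = ‖X i - c‖ ^ 2 + 2 ⟪X j - X i, X i - c⟫ + ‖X j - X i‖ ^ 2`, so
`⟪X j - X i, X i - c⟫ = - ‖X j - X i‖ ^ 2 / 2` and `⟪force (X j - X i), X i - c⟫ = - ‖X j - X i‖⁻¹ / 2` (also if
`X j = X i`, both sides are `0`). Take the inner product of the equilibrium at `i` with `X i - c`. -/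
def S_RAD : Prop :=
  ∀ (E : Type) [NormedAddCommGroup E] [InnerProductSpace ℝ E] (ι : Type) [Fintype ι] (X : ι → E)
    (c : E) (R : ℝ), (∀ i, ‖X i - c‖ = R) → ∀ w : ι → ℝ,
    (∀ i, ∑ j, w j • force (X j - X i) = 0) → ∀ i, ∑ j, w j * ‖X j - X i‖⁻¹ = 0

/-- inversion with centre `X k` -/
noncomputable def iv {E ι : Type} [NormedAddCommGroup E] [InnerProductSpace ℝ E] (X : ι → E)
    (k j : ι) : E := (‖X j - X k‖ ^ 2)⁻¹ • (X j - X k)

/-- **[INV]** Inversion of charges in equilibrium. PROOF. Write `y j = X j - X k`, `r j = ‖X j - X i‖`,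
`i ≠ k`. For `j ≠ k`, `j ≠ i`: `‖iv j - iv i‖ = r j / (‖y j‖ * ‖y i‖)` (square it:
`‖y j‖⁻² - 2 ⟪y j, y i⟫ ‖y j‖⁻² ‖y i‖⁻² + ‖y i‖⁻²`, or `EuclideanGeometry.dist_inversion_inversion`), so the term is
`w j * ‖y j‖⁻¹ * ‖y i‖ ^ 3 * ‖y j‖ ^ 3 / r j ^ 3 • (‖y j‖⁻² • y j - ‖y i‖⁻² • y i)
 = ‖y i‖ ^ 3 • (w j / r j ^ 3) • (y j - (‖y j‖ ^ 2 / ‖y i‖ ^ 2) • y i)`.
Insert `‖y j‖ ^ 2 = ‖y i‖ ^ 2 + 2 ⟪y j - y i, y i⟫ + r j ^ 2`: it is
`‖y i‖ ^ 3 • (w j • force (X j - X i) - (‖y i‖ ^ 2)⁻¹ * (2 * ⟪w j • force (X j - X i), y i⟫ + w j * (r j)⁻¹) • y i)`; this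
formula is also right for `j = i` (`0 = 0`). Sum over `j ≠ k`. By hypothesis the sum of
`w j • force (X j - X i)` over `j ≠ k` is `- w k • force (X k - X i) = (w k / ‖y i‖ ^ 3) • y i` (`X k - X i = - y i`),
and the sum of `w j * (r j)⁻¹` over `j ≠ k` is `- w k / ‖y i‖`. So the total is
`‖y i‖ ^ 3 • (w k / ‖y i‖ ^ 3 - (‖y i‖ ^ 2)⁻¹ * (2 * w k / ‖y i‖ - w k / ‖y i‖)) • y i = 0`. -/
def S_INV : Prop :=
  ∀ (E : Type) [NormedAddCommGroup E] [InnerProductSpace ℝ E] (ι : Type) [Fintype ι]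
    [DecidableEq ι] (X : ι → E) (k : ι) (w : ι → ℝ), Function.Injective X →
    (∀ i, ∑ j, w j • force (X j - X i) = 0) → (∀ i, ∑ j, w j * ‖X j - X i‖⁻¹ = 0) →
    ∀ i, i ≠ k →
      ∑ j ∈ Finset.univ.erase k, (w j * ‖X j - X k‖⁻¹) • force (iv X k j - iv X k i) = 0

/-- **[GEO]** The inversion maps a circle through the centre to a line.
PROOF. `Concyclic`: a centre `c` with `dist (X i) c = R` for all `i`, and `P = vectorSpan ℝ (range X)` has rank
`≤ 2` (`Coplanar.finiteDimensional_vectorSpan`, `coplanar_iff_finrank_le_two`). With `y j = X j - X k ∈ P`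
(`vsub_mem_vectorSpan`): `‖y j‖ ^ 2 = 2 ⟪y j, c - X k⟫`, so `⟪iv j, c - X k⟫ = 1 / 2` for `j ≠ k`. Let `b` be the
orthogonal projection of `c - X k` to `P`: `⟪iv j, b⟫ = 1 / 2` for `j ≠ k`. If there is no `j ≠ k` take
`p = 0`, `u = 0`. Otherwise fix `j0 ≠ k`; `b ≠ 0`. The vectors `iv j - iv j0`, `j ≠ k`, are in
`Q = (ℝ ∙ b)ᗮ ⊓ P`, and `finrank Q = finrank P - 1 ≤ 1` (`Submodule.finrank_add_inf_finrank_orthogonal`,
`finrank_span_singleton`). So there is `u` with `Q ≤ ℝ ∙ u` (`finrank_le_one_iff`), and `p = iv j0`. -/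
def S_GEO : Prop :=
  ∀ (E : Type) [NormedAddCommGroup E] [InnerProductSpace ℝ E] (ι : Type) (X : ι → E) (k : ι),
    Function.Injective X → EuclideanGeometry.Concyclic (Set.range X) →
    ∃ (p u : E) (s : ι → ℝ), ∀ j, j ≠ k → iv X k j = p + s j • u

/-- **[LDAT]** The data of the line. PROOF (may use `S_RAD`, `S_INV`, `S_GEO`). `p`, `u`, `s` from `S_GEO`,
`g x = ‖p + x • u‖`. 1. `g` is convex (`convexOn_norm` composed with an affine map, or directly: `y` is a
convex combination of `x` and `z`), so `g y ≤ max (g x) (g z)` for `x < y < z`. 2.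
`g (s j) = ‖iv X k j‖ = ‖X j - X k‖⁻¹`. 3. `s i = s j` gives `iv i = iv j`, equal norms, `X i - X k = X j - X k`.
4. From `S_RAD` (centre and radius of `Cospherical`, `dist_eq_norm`) and `S_INV`:
`∑ j ∈ univ.erase k, (w j * g (s j)) • force ((s j - s i) • u) = 0`, `force ((s j - s i) • u) = phi (s j - s i) • force u`
(`force_smul_phi`). If `u ≠ 0` use `force_ne_zero`. If `u = 0` then `iv X k j = p` for all `j ≠ k`, so by 3
`univ.erase k = {i}` and the sum is `w i * g (s i) * phi 0 = 0`. -/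
def S_LDAT : Prop :=
  ∀ (E : Type) [NormedAddCommGroup E] [InnerProductSpace ℝ E] (ι : Type) [Fintype ι]
    [DecidableEq ι] (X : ι → E) (k : ι), Function.Injective X →
    EuclideanGeometry.Concyclic (Set.range X) →
    ∃ (s : ι → ℝ) (g : ℝ → ℝ), (∀ x y z : ℝ, x < y → y < z → g y ≤ max (g x) (g z)) ∧
      (∀ j, j ≠ k → g (s j) = ‖X j - X k‖⁻¹) ∧
      (∀ i j, i ≠ k → j ≠ k → s i = s j → i = j) ∧
      ∀ w : ι → ℝ, (∀ i, ∑ j, w j • force (X j - X i) = 0) → ∀ i, i ≠ k →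
        ∑ j ∈ Finset.univ.erase k, w j * g (s j) * phi (s j - s i) = 0

/-- alternating sum of the values of `g` -/
def alt (g : ℝ → ℝ) : List ℝ → ℝ
  | [] => 0
  | x :: l => g x - alt g l

/-- **[ALTS]** PROOF. Lemma A: if `l.Pairwise (fun a b => g a ≤ g b)` and `g > 0` on `l` then `alt g l ≤ 0` for
`l` of even length and `alt g (x :: l') ≥ g x` for `x :: l'` of odd length (induction, two elements at a time:
`alt g (x :: y :: l) = (g x - g y) + alt g l`; and `alt g (x :: l') = g x - alt g l'`). Lemma B (the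
statement), induction two elements at a time. `[x]`: `g x > 0`. `x :: y :: l`, `l` odd:
`alt = (g x - g y) + alt g l`. If `g y ≤ g x`, use the induction hypothesis for `l`. If `g x < g y`: for `z ∈ l`,
`g y ≤ max (g x) (g z)` gives `g y ≤ g z`; for `z < z'` in `l`: `g z ≤ max (g y) (g z') = g z'` (as `g y ≤ g z'`).
So Lemma A applies to `y :: l` (even length) and `alt = g x - alt g (y :: l) ≥ g x > 0`. -/
def S_ALTS : Prop :=
  ∀ (g : ℝ → ℝ) (l : List ℝ), (∀ x y z : ℝ, x < y → y < z → g y ≤ max (g x) (g z)) →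
    l.Pairwise (· < ·) → (∀ x ∈ l, 0 < g x) → Odd l.length → 0 < alt g l

/-- **[CSUM]** PROOF. Induction on `l` for all `a`; `w b = - w a` for `l = b :: l'` (take `l1 = []`), and the
hypothesis passes to `b :: l'` (prepend `a` to `l1`). -/
def S_CSUM : Prop :=
  ∀ (ι : Type) (s w : ι → ℝ) (g : ℝ → ℝ) (a : ι) (l : List ι),
    (∀ (l1 : List ι) (x y : ι) (l2 : List ι), a :: l = l1 ++ x :: y :: l2 → w y = - w x) →
    ((a :: l).map (fun j => w j * g (s j))).sum = w a * alt g ((a :: l).map s)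

/-- **[CIRC]** PROOF (may use `S_LDAT`, `S_RAD`, `S_LKER`, `S_LADJ`, `S_SORT`, `S_RHO`, `S_ALTS`, `S_CSUM`).
For `k`, take `s`, `g` from `S_LDAT` and put `T = univ.erase k`, `v j = if j = k then 0 else w j * g (s j)`. For
`w ∈ W`: `∑ j, v j * phi (s j - s i) = 0` for `i ∈ T`, `v = 0` outside `T`, `s` is injective on `T`, and for
`j ≠ k`: `g (s j) > 0`, so `v j = 0` iff `w j = 0`. `T.card = n - 1`.
`n` odd: `S_LKER`.1: `v = 0`, so `w j = 0` for `j ≠ k`, and `w k = 0` by the sum.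
`n` even (`n ≥ 2`). (a) If `w 0 = 0` then `w = 0`: take `k = 1 ≠ 0`; `S_LKER`.2 at `i = 0` gives `v = 0`, so
`w j = 0` for `j ≠ 1` and `w 1 = 0` by the sum. (b) `S_RHO`: `w (j + 1) = - w j`, so `(w j) ^ 2 = (w 0) ^ 2` for
all `j`. (c) Suppose `w ≠ 0`; then `w 0 ≠ 0` and all `w j ≠ 0`. Take `k = 0`, `l` the sorted list of `T`
(`S_SORT`), of odd length `n - 1`, `l = a :: l'`. If `l = l1 ++ x :: y :: l2` then `S_LADJ`.2 for `v` gives
`α * v x + β * v y = 0`, so `w x`, `w y` have opposite signs and equal squares: `w y = - w x`. By `S_CSUM` and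
`S_ALTS` (`l.map s` is increasing) `∑ j ∈ T, w j * g (s j) = w a * alt g (l.map s) ≠ 0`. But this sum is
`∑ j ≠ 0, w j * ‖X j - X 0‖⁻¹ = 0` by `S_RAD` (centre, radius from `Concyclic.Cospherical`). -/
def S_CIRC : Prop :=
  ∀ (E : Type) [NormedAddCommGroup E] [InnerProductSpace ℝ E] (n : ℕ) [NeZero n]
    (W : Submodule ℝ (ZMod n → ℝ)) (X : ZMod n → E), Function.Injective X →
    (∀ w ∈ W, (fun j => w (j + 1)) ∈ W) → (∀ w ∈ W, ∑ j, w j = 0) →
    (∀ w ∈ W, ∀ i, ∑ j, w j • force (X j - X i) = 0) →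
    EuclideanGeometry.Concyclic (Set.range X) → ∀ w ∈ W, w = 0

/-! ## The theorem -/

/-- **[FIN]** PROOF (may use `S_LINE`, `S_CIRC`). `n = 0`: nothing to prove. `n = k + 1`: `h.core` (`Convert.lean`);
`bodyZ k x T j t = body (k + 1) x T j t` (definitional, `ZMod (k + 1)` is `Fin (k + 1)`; `j.val` is the value), so
`Set.range (fun j => bodyZ k x T j t)` is the range in the hypothesis. Apply `S_LINE` or `S_CIRC` to
`W (k + 1) μ` (`Core.W_shift`, `Core.sum_W`, `Core.equil_W`, injectivity from `Core.nocol`) and to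
`w j = μ (j + s) - μ j` (`Core.diff_mem`): `μ (j + s) = μ j` for all `j`, `s`, so `μ` is constant. -/
def S_FIN : Prop :=
  ∀ (E : Type) [NormedAddCommGroup E] [InnerProductSpace ℝ E] (n : ℕ) (m : Fin n → ℝ) (x : ℝ → E)
    (T : ℝ), IsChoreography n m x T → ∀ t : ℝ,
    (Collinear ℝ (Set.range (fun i => body n x T i t)) ∨
      EuclideanGeometry.Concyclic (Set.range (fun i => body n x T i t))) →
    ∀ i j : Fin n, m i = m j

end Pool.Agent.Lib.MP_c28bf6_an.LC
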