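import Pool.Agent.Lib.MP_c28bf6_an.LC.One

/-!
# Lines and circles that contain all but a few bodies: statements of the pieces (second part)

Theorem. If `n` is odd and at one time all bodies but at most three lie on a line, or all bodies
but at most one lie on a circle, then all masses are equal (for even `n`: all but at most one on a
line, or all on a circle).

Piece `X` is the file `LC/Q/X.lean` with `theorem q_X (h1 : Q_A) (h2 : Q_B) .. : Q_X`, namespace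
`Pool.Agent.Lib.MP_c28bf6_an.LC`, importing this file; the pieces that may be used as hypotheses are
named in the docstrings. The theorems `t_..` of `LC/All.lean` (`t_POS : S_POS`, `t_LKER : S_LKER`,
`t_LDAT : S_LDAT`, ..) and `p_..` (`p_ALG : S_ALG`, `p_TK : S_TK`, `p_APP : S_APP`, ..; all statements in
`LC/Stm.lean`) may be used directly.
-/

open Filter Topology

set_option autoImplicit false

namespace Pool.Agent.Lib.MP_c28bf6_an.LC

/-! ## The bordered Pfaffian -/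

/-- **[LB2]** A lower bound with the last pair kept.
PROOF (as `p_LBD`, which may be imitated; uses `t_POS`). Induction on `l`, two elements at a time.
`l = []`: `δ = 1`, `pf (KE S c) [a, y] = KE S c a y` and the terms with `s > L0` are `≥ 0`.
`l = p :: q :: l'`: `δ = exp (-(L0 * (q - p))) * δ'`. Let `S0 = S.filter (· ≤ L0)`, nonempty. `Pos S` for
`c' = fun s => if s ≤ L0 then c s else 0` gives `pf (KE S c) ys ≥ pf (KE S c') ys = pf (KE S0 c) ys`, and
`LBP L S0`, `L = S0.max' ≤ L0`, gives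
`pf (KE S0 c) (p :: q :: R) ≥ exp (-(L * (q - p))) * (∑ s ∈ S0, c s) * pf (KE S0 c) R`, `R = l' ++ [a, y]`; the
sum is `≥ 1`, and the induction hypothesis for `S0` (`S0.filter (· ≤ L0) = S0`) bounds
`pf (KE S0 c) R`. -/
def Q_LB2 : Prop :=
  ∀ (L0 : ℝ) (l : List ℝ) (a : ℝ), (l ++ [a]).Pairwise (· < ·) → Even l.length →
    ∃ δ : ℝ, 0 < δ ∧ ∀ (S : Finset ℝ) (c : ℝ → ℝ), (∀ s ∈ S, 0 < s) → (∀ s ∈ S, 0 ≤ c s) →
      1 ≤ ∑ s ∈ S.filter (· ≤ L0), c s → ∀ y : ℝ, a < y →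
      δ * KE (S.filter (· ≤ L0)) c a y ≤ pf (KE S c) (l ++ [a, y])

/-- **[LOW]** PROOF. The sum over `s = k / M`, `1 ≤ k ≤ N`, `k / M ≤ 2` (`Finset.sum_image`, `k ↦ k / M` is
injective) has nonnegative terms. Keep the `k` with `M / r ≤ k ≤ 2 M / r`: they are `≥ 1`, `≤ 2 M ≤ N`
(`r ≥ 1`), `k / M ≤ 2 / r ≤ 2`; there are at least `M / r - 1 ≥ M / (2 r)` of them (e.g. the set
`Finset.Icc ⌈M / r⌉₊ ⌊2 * M / r⌋₊`), and each term is
`k / M ^ 2 * exp (-(k / M * r)) ≥ 1 / (r * M) * exp (-2)`. -/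
def Q_LOW : Prop :=
  ∀ (a y : ℝ) (M N : ℕ), 1 ≤ y - a → 2 * (y - a) ≤ M → 2 * M ≤ N →
    Real.exp (-2) / (2 * (y - a) ^ 2) ≤
      KE ((SM M N).filter (· ≤ (2 : ℝ))) (fun s => s / M) a y

/-- **[PL]** PROOF (may use `Q_LB2`, `Q_LOW`). `δ` from `Q_LB2` with `L0 = 2`; `ε = δ * exp (-2) / 2`. For `y ≥ a + 1`,
`M ≥ 2 (y - a)`, `M ≥ 1`, `N ≥ 2 M`: `S = SM M N` consists of positive numbers, the filtered sum is `≥ 1`
(`p_APP.2.2`), so `δ * (exp (-2) / (2 * (y - a) ^ 2)) ≤ pf (KE (SM M N) (fun s => s / M)) (l ++ [a, y])`. Let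
`N → ∞`, then `M → ∞` (`p_TK`, `p_APP`) exactly as in `LC/P/PP.lean`. -/
def Q_PL : Prop :=
  ∀ (l : List ℝ) (a : ℝ), (l ++ [a]).Pairwise (· < ·) → Even l.length →
    ∃ ε : ℝ, 0 < ε ∧ ∀ y : ℝ, a + 1 ≤ y →
      ε / (y - a) ^ 2 ≤ pf (fun a b : ℝ => ((b - a) ^ 2)⁻¹) (l ++ [a, y])

/-- the kernel `1 / (b - a) ^ 2` with an additional point `none` (at infinity): `K (some a) none = 1` -/
noncomputable def KB : Option ℝ → Option ℝ → ℝ
  | some a, some b => ((b - a) ^ 2)⁻¹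
  | some _, none => 1
  | none, some _ => -1
  | none, none => 0

/-- **[BORD]** THE BORDERED PFAFFIAN IS POSITIVE.
PROOF (may use `Q_PL`). For `y : ℕ` let `Ky : Option ℝ → Option ℝ → ℝ` be `KB` with `Ky (some a) none =
(y ^ 2) * ((y - a) ^ 2)⁻¹`. `p_TK`: `pf (Ky y) ys → pf KB ys` as `y → ∞`, `ys = (l ++ [a]).map some ++ [none]`,
because `(y / (y - a)) ^ 2 → 1`. With `f : Option ℝ → ℝ`, `f (some x) = x`, `f none = y`, and
`g (some x) = 1`, `g none = y ^ 2`: for `x, x'` before each other in `ys`: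
`Ky x x' = g x * g x' * K (f x) (f x')`, `K a b = ((b - a) ^ 2)⁻¹` (use the congruence `p_ALG.1`), so by
`p_ALG.2` `pf Ky ys = y ^ 2 * pf K (l ++ [a, y])`
(`ys.map f = l ++ [a, y]`, the product of the `g` is `y ^ 2`). By `Q_PL` this is `≥ ε * (y / (y - a)) ^ 2` for
large `y`, so the limit is `≥ ε > 0` (`ge_of_tendsto'` or `le_of_tendsto_of_tendsto`). -/
def Q_BORD : Prop :=
  ∀ (l : List ℝ) (a : ℝ), (l ++ [a]).Pairwise (· < ·) → Even l.length →
    0 < pf KB ((l ++ [a]).map some ++ [none])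

/-! ## Charges on a circle and on a line -/

/-- **[CSUM2]** Charges in equilibrium on a line with sum zero vanish.
PROOF (may use `Q_BORD`). `T.card` even: `t_LKER`.1. `T.card` odd: `l` from `p_SORT` for `T`. On `Option ι`
take the antisymmetric kernel `K (some i) (some j) = phi (s j - s i)`, `K (some _) none = 1`,
`K none (some _) = -1`, `K none none = 0` and the charges `c (some j) = w j`, `c none = 0`. Then
`∑ j, c j * K x j = 0` for `x = some i`, `i ∈ T`, and for `x = none` (`Fintype.sum_option`). Let `i ∈ T`,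
`l = l1 ++ i :: l2`. `t_SLC`.4 with the lists `l1.map some` and `l2.map some ++ [none]` gives
`∑ j, c j * pf K (l1.map some ++ j :: (l2.map some ++ [none])) = 0`. Terms: `j = none`: `c = 0`; `j = some i'`,
`i' ∈ l1 ∨ i' ∈ l2`: `p_ALT`; `i' ∉ l`: `w i' = 0`; so `w i * pf K (l.map some ++ [none]) = 0`. This Pfaffian is
positive: the list of the `s i`, `i ∈ l`, is increasing, of odd length, so of the form `l' ++ [a]`
(`List.eq_nil_or_concat` / `List.dropLast_append_getLast`), `K x y = KB (x.map s) (y.map s)` for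
`x` before `y` (`phi_of_pos`), so `pf K (..) = pf KB ((l.map s).map some ++ [none])` by `p_ALG`.1, `p_ALG`.2 and
`Q_BORD` applies. -/
def Q_CSUM : Prop :=
  ∀ (ι : Type) [Fintype ι] [DecidableEq ι] (s w : ι → ℝ) (T : Finset ι),
    (∀ i ∈ T, ∀ j ∈ T, s i = s j → i = j) → (∀ i, i ∉ T → w i = 0) →
    (∀ i ∈ T, ∑ j, w j * phi (s j - s i) = 0) → ∑ j, w j = 0 → ∀ i, w i = 0

/-- **[CST]** CHARGES ON A CIRCLE ARE NOT IN EQUILIBRIUM.
PROOF (may use `Q_CSUM`). Choose `k` and take `s`, `g` from `t_LDAT`; `T = univ.erase k`,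
`v j = if j = k then 0 else w j * g (s j)`. `∑ j, v j * phi (s j - s i) = 0` for `i ∈ T`. By `p_RAD` (centre and
radius from `Concyclic.Cospherical`, `dist_eq_norm`) `∑ j, w j * ‖X j - X k‖⁻¹ = 0`; the term `j = k` is `0`, so
`∑ j, v j = 0`. `Q_CSUM` gives `v = 0`, and `g (s j) = ‖X j - X k‖⁻¹ ≠ 0` for `j ≠ k`, so `w j = 0` for `j ≠ k`. Choose
`i ≠ k` (`2 ≤ card`): the equilibrium at `i` is `w k • force (X k - X i) = 0`, and `force_ne_zero` gives
`w k = 0`. -/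
def Q_CST : Prop :=
  ∀ (E : Type) [NormedAddCommGroup E] [InnerProductSpace ℝ E] (ι : Type) [Fintype ι]
    (X : ι → E), Function.Injective X → EuclideanGeometry.Concyclic (Set.range X) →
    2 ≤ Fintype.card ι → ∀ w : ι → ℝ, (∀ i, ∑ j, w j • force (X j - X i) = 0) → ∀ i, w i = 0

/-- **[LST]** Charges on a line. PROOF. `collinear_iff_exists_forall_eq_smul_vadd`: `X j = s j • u +ᵥ p`.
If `card ι ≤ 1` everything is clear (`card = 1` is odd, every `j` equals `i`). Otherwise `u ≠ 0`, `s` is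
injective, and `∑ j, w j * phi (s j - s i) = 0` (as in `LC/P/LINE.lean`, `force_smul_phi`,
`force_ne_zero`); `t_LKER` with `T = univ`. -/
def Q_LST : Prop :=
  ∀ (E : Type) [NormedAddCommGroup E] [InnerProductSpace ℝ E] (ι : Type) [Fintype ι]
    (X : ι → E), Function.Injective X → Collinear ℝ (Set.range X) →
    ∀ w : ι → ℝ, (∀ i, ∑ j, w j • force (X j - X i) = 0) →
      (Even (Fintype.card ι) → ∀ i, w i = 0) ∧
      (Odd (Fintype.card ι) → ∀ i, w i = 0 → ∀ j, w j = 0)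

/-! ## Odd numbers of bodies -/

/-- the hypotheses on the space `W` of charges and the configuration `X` -/
structure Sys (E : Type) [NormedAddCommGroup E] [InnerProductSpace ℝ E] (n : ℕ) [NeZero n]
    (W : Submodule ℝ (ZMod n → ℝ)) (X : ZMod n → E) : Prop where
  inj : Function.Injective X
  shift : ∀ w ∈ W, (fun j => w (j + 1)) ∈ W
  sum : ∀ w ∈ W, ∑ j, w j = 0
  eq : ∀ w ∈ W, ∀ i, ∑ j, w j • force (X j - X i) = 0

/-- **[EXZ]** 1. all shifts; 2. for odd `n` and `W ≠ 0` every index `a` is a zero of a nonzero element of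
`W`; 3. an identity `w b = ρ * w a` for all `w ∈ W` is an identity `w (j + (b - a)) = w j`, if `n` is odd and
`W ≠ 0`.
PROOF. 1. induction on `r.val` (`ZMod.natCast_zmod_val`). 2. If not, by 1 every `w ∈ W` with `w 0 = 0` is `0`
(shift by `a`: `w' j = w (j - a)` has `w' a = w 0`), so `w (j + 1) = - w j` by `p_RHO`, and
`w 0 = (-1) ^ n * w 0` (`LINE_alt` in `LC/P/LINE.lean`) gives `w 0 = 0`, `w = 0`: `W = 0`. 3. By 1
`w (j + (b - a)) = ρ * w j` for all `j` (shift by `j - a`). Take `w ∈ W` and `j` with `w j ≠ 0`: iterating `n`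
times, `w j = ρ ^ n * w j`, `ρ ^ n = 1`, and `n` is odd, so `ρ = 1` (`Odd.pow_eq_one_iff` or monotonicity of
`x ↦ x ^ n`: `Odd.strictMono_pow`). -/
def Q_EXZ : Prop :=
  ∀ (E : Type) [NormedAddCommGroup E] [InnerProductSpace ℝ E] (n : ℕ) [NeZero n]
    (W : Submodule ℝ (ZMod n → ℝ)) (X : ZMod n → E), Sys E n W X →
    (∀ w ∈ W, ∀ r : ZMod n, (fun j => w (j + r)) ∈ W) ∧
    (Odd n → (∃ w ∈ W, w ≠ 0) → (∀ a, ∃ w ∈ W, w ≠ 0 ∧ w a = 0) ∧
      ∀ (a b : ZMod n) (ρ : ℝ), (∀ w ∈ W, w b = ρ * w a) → ∀ w ∈ W, ∀ j, w (j + (b - a)) = w j)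

/-- **[SUB]** Charges that vanish on `F`. PROOF (may use `Q_CST`, `Q_LST`). The charges on the subtype
`{i // i ∉ F}` are in equilibrium (`∑ j, w j • .. = ∑ j : {i // i ∉ F}, ..`, e.g.
`Finset.sum_subtype_of_mem`/`Finset.sum_subset`; the terms in `F` vanish). Its cardinality is
`n - F.card`. -/
def Q_SUB : Prop :=
  ∀ (E : Type) [NormedAddCommGroup E] [InnerProductSpace ℝ E] (n : ℕ) [NeZero n]
    (W : Submodule ℝ (ZMod n → ℝ)) (X : ZMod n → E), Sys E n W X →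
    ∀ (F : Finset (ZMod n)) (w : ZMod n → ℝ), w ∈ W → (∀ i ∈ F, w i = 0) →
    (EuclideanGeometry.Concyclic (X '' {i | i ∉ F}) → F.card + 2 ≤ n → w = 0) ∧
    (Collinear ℝ (X '' {i | i ∉ F}) →
      (Even (n - F.card) → w = 0) ∧ (Odd (n - F.card) → ∀ i, i ∉ F → w i = 0 → w = 0))

/-- **[OC]** Odd `n`, all bodies but one on a circle.
PROOF (may use `Q_EXZ`, `Q_SUB`). Suppose `W ≠ 0`. If `n = 1` then `w 0 = ∑ w = 0`. If `n ≥ 3` take
`w ∈ W`, `w ≠ 0`, `w k = 0` (`Q_EXZ`) and apply `Q_SUB` with `F = {k}`. -/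
def Q_OC : Prop :=
  ∀ (E : Type) [NormedAddCommGroup E] [InnerProductSpace ℝ E] (n : ℕ) [NeZero n]
    (W : Submodule ℝ (ZMod n → ℝ)) (X : ZMod n → E), Sys E n W X → Odd n →
    ∀ k, EuclideanGeometry.Concyclic (X '' {i | i ≠ k}) → ∀ w ∈ W, w = 0

/-- **[PERP]** The component orthogonal to a line of the equilibrium at a body on the line.
PROOF. Let `π x = x - (⟪u, x⟫ / ‖u‖ ^ 2) • u`, linear, `π u = 0`. For `j ∉ F`: `π (X j - X i) = 0`. For `j ∈ F`:
`π (X j - X i) = π (X j - p)` as `π (X i - p) = 0`. Apply `π` to `∑ j, w j • force (X j - X i) = 0`. -/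
def Q_PERP : Prop :=
  ∀ (E : Type) [NormedAddCommGroup E] [InnerProductSpace ℝ E] (n : ℕ) [NeZero n]
    (W : Submodule ℝ (ZMod n → ℝ)) (X : ZMod n → E), Sys E n W X →
    ∀ (F : Finset (ZMod n)) (p u : E) (s : ZMod n → ℝ), (∀ j, j ∉ F → X j = p + s j • u) →
    ∀ w ∈ W, ∀ i, i ∉ F → ∑ j ∈ F, (w j * (‖X j - X i‖ ^ 3)⁻¹) •
      ((X j - p) - (inner ℝ u (X j - p) / ‖u‖ ^ 2) • u) = 0

/-- **[MIR]** Two points with a constant ratio of distances from three points of a line, and parallel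
heights, are equal or mirror images. PROOF. Let `x, h` and `y, k` be foot parameter and height of `P`
and `Q`: `P = p + x • u + h`, `Q = p + y • u + k`, `x = ⟪u, P - p⟫ / ‖u‖ ^ 2`, `h`, `k` orthogonal to `u`
(`h = (P - p) - x • u`). `‖P - (p + s • u)‖ ^ 2 = ‖u‖ ^ 2 * (s - x) ^ 2 + ‖h‖ ^ 2`, same for `Q`. So the polynomial
`‖u‖ ^ 2 * (s - x) ^ 2 + ‖h‖ ^ 2 - c ^ 2 * (‖u‖ ^ 2 * (s - y) ^ 2 + ‖k‖ ^ 2)` of degree `≤ 2` vanishes at
three different `s`, so its coefficients vanish: `c ^ 2 = 1`, `x = y`, `‖h‖ = ‖k‖`. With `h = t • k`, `k ≠ 0`: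
`|t| = 1`. -/
def Q_MIR : Prop :=
  ∀ (E : Type) [NormedAddCommGroup E] [InnerProductSpace ℝ E] (p u P Q : E) (c t : ℝ)
    (s : Fin 3 → ℝ), u ≠ 0 → Function.Injective s → 0 < c →
    (∀ i, ‖P - (p + s i • u)‖ = c * ‖Q - (p + s i • u)‖) →
    (P - p) - (inner ℝ u (P - p) / ‖u‖ ^ 2) • u =
      t • ((Q - p) - (inner ℝ u (Q - p) / ‖u‖ ^ 2) • u) →
    (Q - p) - (inner ℝ u (Q - p) / ‖u‖ ^ 2) • u ≠ 0 →
    inner ℝ u (P - p) = inner ℝ u (Q - p) ∧ (t = 1 ∨ t = -1)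

/-- **[OL2]** Odd `n`, exactly two bodies off a line.
PROOF (may use `Q_EXZ`, `Q_SUB`, `Q_PERP`). Suppose `W ≠ 0`. Let `h j = (X j - p) - (⟪u, X j - p⟫ / ‖u‖ ^ 2) • u`;
`h a ≠ 0`, `h b ≠ 0` (else `X a = p + (..) • u`). Fix `i ∉ {a, b}` (`n ≥ 3`). `Q_PERP`: with
`κ j = (‖X j - X i‖ ^ 3)⁻¹ > 0`: `(w a * κ a) • h a + (w b * κ b) • h b = 0` for all `w ∈ W`. Some `w0 ∈ W` has
`w0 b ≠ 0` (shift a nonzero element, `Q_EXZ`.1), so `h b = τ • h a`, hence
`(w a * κ a + w b * κ b * τ) • h a = 0`, `τ ≠ 0`, so `w b = ρ * w a` for all `w ∈ W`, `ρ = - κ a / (κ b * τ)`. `Q_EXZ`.3: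
`w (j + c) = w j`, `c = b - a`. Take `w ∈ W`, `w ≠ 0`, `w a = 0` (`Q_EXZ`.2): `w b = 0` and
`w (b + c) = 0`, with `b + c ≠ b`, `b + c ≠ a` (`2 c = 0` would give `c = 0` because `n` is odd). `n - 2` is odd,
so `Q_SUB` gives `w = 0`: contradiction. -/
def Q_OL2 : Prop :=
  ∀ (E : Type) [NormedAddCommGroup E] [InnerProductSpace ℝ E] (n : ℕ) [NeZero n]
    (W : Submodule ℝ (ZMod n → ℝ)) (X : ZMod n → E), Sys E n W X → Odd n →
    ∀ (a b : ZMod n) (p u : E) (s : ZMod n → ℝ), a ≠ b → u ≠ 0 →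
    (∀ j, j ≠ a → j ≠ b → X j = p + s j • u) →
    (∀ r : ℝ, X a ≠ p + r • u) → (∀ r : ℝ, X b ≠ p + r • u) → ∀ w ∈ W, w = 0

/-- **[OL3]** Odd `n ≥ 7`, exactly three bodies off a line.
PROOF (may use `Q_EXZ`, `Q_SUB`, `Q_PERP`, `Q_MIR`). Suppose `W ≠ 0`; `F = {a, b, c}`, `h j` as before, all three
nonzero. `n - 3` is even: an element of `W` that vanishes on `F` is `0` (`Q_SUB`). CLAIM: if `w ∈ W`,
`w ≠ 0`, vanishes at one of the three, say at `a`, then for the other two `b`, `c`: `h b = - h c` and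
`⟪u, X b - p⟫ = ⟪u, X c - p⟫`. Proof: for `i ∉ F`: `(w b * κ i b) • h b + (w c * κ i c) • h c = 0`,
`κ i j = (‖X j - X i‖ ^ 3)⁻¹`. If `w b = 0` then `w c = 0` (`h c ≠ 0`) and `w = 0`: so `w b ≠ 0`, `w c ≠ 0`, and
`h b = t • h c` with `t = - (w c * κ i c) / (w b * κ i b)`, the same `t` for all `i ∉ F` (`h c ≠ 0`). So
`κ i c / κ i b` is the same for all `i ∉ F`, and the ratio `‖X b - X i‖ / ‖X c - X i‖` too (cube roots of
positive numbers). There are at least four `i ∉ F`, their `s i` are different (`X` injective): `Q_MIR`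
gives `⟪u, X b - p⟫ = ⟪u, X c - p⟫` and `t = 1 ∨ t = -1`; `t = 1` would give `X b = X c`. Apply the claim to
`w` vanishing at `a` and to `w` vanishing at `b` (`Q_EXZ`.2): `h b = - h c`, `h a = - h c` and the same inner
products with `u`, so `X a = X b`: contradiction. -/
def Q_OL3 : Prop :=
  ∀ (E : Type) [NormedAddCommGroup E] [InnerProductSpace ℝ E] (n : ℕ) [NeZero n]
    (W : Submodule ℝ (ZMod n → ℝ)) (X : ZMod n → E), Sys E n W X → Odd n → 7 ≤ n →
    ∀ (a b c : ZMod n) (p u : E) (s : ZMod n → ℝ), a ≠ b → a ≠ c → b ≠ c → u ≠ 0 →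
    (∀ j, j ≠ a → j ≠ b → j ≠ c → X j = p + s j • u) →
    (∀ r : ℝ, X a ≠ p + r • u) → (∀ r : ℝ, X b ≠ p + r • u) → (∀ r : ℝ, X c ≠ p + r • u) →
    ∀ w ∈ W, w = 0

/-- **[OL]** Odd `n ≥ 7`, all bodies but at most three on a line.
PROOF (may use `Q_OL2`, `Q_OL3`). `collinear_iff_exists_forall_eq_smul_vadd`: `X j = p + s j • u` for
`j ∉ F`; `u ≠ 0` because there are at least four such `j`. Let `G` be the set of the `j ∈ F` with
`X j ≠ p + r • u` for all `r`: `G.card ≤ 3`, and after changing `s` on `F \ G`, `X j = p + s j • u` for `j ∉ G`.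
`G = ∅`: `t_LINE` (`Set.range X` is collinear). `G = {k}`: `line_one`. `G = {a, b}`: `Q_OL2`. `G = {a, b, c}`:
`Q_OL3` (`Finset.card_eq_two`, `Finset.card_eq_three`). -/
def Q_OL : Prop :=
  ∀ (E : Type) [NormedAddCommGroup E] [InnerProductSpace ℝ E] (n : ℕ) [NeZero n]
    (W : Submodule ℝ (ZMod n → ℝ)) (X : ZMod n → E), Sys E n W X → Odd n → 7 ≤ n →
    ∀ F : Finset (ZMod n), F.card ≤ 3 → Collinear ℝ (X '' {i | i ∉ F}) → ∀ w ∈ W, w = 0

/-- **[FIN]** THE THEOREM. PROOF (may use `Q_OC`, `Q_OL`). `n ≤ 6`: `IsChoreography.eq_of_le_six`. Otherwise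
`n = k + 1`, and as in `LC/One.lean` (`final`) it is enough to show that all elements of
`Core.W (k + 1) m` vanish (`Sys` from `Core.W_shift`, `Core.sum_W`, `Core.equil_W`, `Core.nocol`).
Line, `F.card ≤ 1`: `final` (`F = ∅`: all bodies are collinear, take any `k`; `F = {k}`). Line, `n` odd, `F.card ≤ 3`:
`Q_OL`. Circle, `F = ∅`: `final`. Circle, `n` odd, `F = {k}`: `Q_OC`. -/
def Q_FIN : Prop :=
  ∀ (E : Type) [NormedAddCommGroup E] [InnerProductSpace ℝ E] (n : ℕ) (m : Fin n → ℝ) (x : ℝ → E)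
    (T : ℝ), IsChoreography n m x T → ∀ (t : ℝ) (F : Finset (Fin n)),
    (Collinear ℝ ((fun i => body n x T i t) '' {i | i ∉ F}) ∧
        F.card ≤ (if Even n then 1 else 3)) ∨
      (EuclideanGeometry.Concyclic ((fun i => body n x T i t) '' {i | i ∉ F}) ∧
        F.card ≤ (if Even n then 0 else 1)) →
    ∀ i j : Fin n, m i = m j

end Pool.Agent.Lib.MP_c28bf6_an.LC
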